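import Mathlib
import Pool.Agent.Lib.MP_c2ffe9_gt.Final

set_option autoImplicit false

namespace Pool.Agent.Results.MP_c2ffe9_gt.NotMaximal

open scoped MeasureTheory

/-- The Hilbert cube. -/
abbrev HCube : Type := ℕ → unitInterval

/-- A closed set such that the maps of the Hilbert cube to `Y` which miss it are dense in `C(HCube, Y)`. -/
def IsZSet {Y : Type} [TopologicalSpace Y] (A : Set Y) : Prop :=
  IsClosed A ∧ Dense {f : C(HCube, Y) | ∀ t, f t ∉ A}

/-- The closed set `A` is a homological Z-set: `A × {0}` is a Z-set in `HCube × [-1, 1]`. -/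
def IsHomZSet (A : Set HCube) : Prop :=
  IsClosed A ∧ IsZSet {p : HCube × Set.Icc (-1 : ℝ) 1 | p.1 ∈ A ∧ (p.2 : ℝ) = 0}

/-- The family `B` of the question: the Borel subsets of the Hilbert cube such that the closure of
every connected subset is a homological Z-set. -/
def calB : Set (Set HCube) :=
  {B | MeasurableSet[borel HCube] B ∧ ∀ C ⊆ B, IsConnected C → IsHomZSet (closure C)}

/-- The subsets of the countable unions of members of `F`. -/
def sigmaGen (F : Set (Set HCube)) : Set (Set HCube) :=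
  {A | ∃ B : ℕ → Set HCube, (∀ n, B n ∈ F) ∧ A ⊆ ⋃ n, B n}

/-- A non-trivial topologically invariant sigma-ideal with Borel base on the Hilbert cube. -/
structure Admissible (S : Set (Set HCube)) : Prop where
  empty : ∅ ∈ S
  subset : ∀ A ∈ S, ∀ B ⊆ A, B ∈ S
  iUnion : ∀ A : ℕ → Set HCube, (∀ n, A n ∈ S) → ⋃ n, A n ∈ S
  uncountable : ∃ A ∈ S, ¬ A.Countable
  ne_univ : S ≠ Set.univ
  invariant : ∀ h : HCube ≃ₜ HCube, (fun A : Set HCube => h '' A) '' S = S
  borelBase : ∀ A ∈ S, ∃ B ∈ S, A ⊆ B ∧ MeasurableSet[borel HCube] B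

theorem admissible_iff {S : Set (Set HCube)} (h : Pool.Agent.Lib.MP_c2ffe9_gt.Admissible S) :
    Admissible S :=
  ⟨h.empty, h.subset, h.iUnion, h.uncountable, h.ne_univ, h.invariant, h.borelBase⟩

/-- The sigma-ideal generated by `calB` is a non-trivial topologically invariant sigma-ideal with Borel
base on the Hilbert cube, but not a maximal one. -/
theorem result : Admissible (sigmaGen calB) ∧
    ∃ S : Set (Set HCube), Admissible S ∧ sigmaGen calB ⊂ S := by
  obtain ⟨h1, S, h2, h3⟩ := Pool.Agent.Lib.MP_c2ffe9_gt.main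
  exact ⟨admissible_iff h1, S, admissible_iff h2, h3⟩

end Pool.Agent.Results.MP_c2ffe9_gt.NotMaximal
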